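import Pool.Agent.Lib.MP_634427_lc.Gate.Defs

/-!
# The votes over the set of digits
-/

namespace Pool.Agent.Lib.MP_634427_lc.Gate

open Finset

private lemma cd_inj {a b a' b' : ℕ} (h : cd a b = cd a' b') : a = a' ∧ b = b' := by
  unfold cd at h
  have h1 : a + b = a' + b' := by
    by_contra hne
    rcases Nat.lt_or_gt_of_ne hne with h2 | h2
    · have h3 : (a + b + 1) ^ 2 ≤ (a' + b') ^ 2 := Nat.pow_le_pow_left h2 2
      nlinarith
    · have h3 : (a' + b' + 1) ^ 2 ≤ (a + b) ^ 2 := Nat.pow_le_pow_left h2 2
      nlinarith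
  rw [h1] at h
  omega

private lemma cd4_inj {n i j : ℕ} {s : Bool} {n' i' j' : ℕ} {s' : Bool}
    (h : cd4 n i j s = cd4 n' i' j' s') : n = n' ∧ i = i' ∧ j = j' ∧ s = s' := by
  unfold cd4 at h
  obtain ⟨h1, h2⟩ := cd_inj h
  obtain ⟨h3, h4⟩ := cd_inj h1
  obtain ⟨h5, h6⟩ := cd_inj h3
  refine ⟨h5, h6, h4, ?_⟩
  cases s <;> cases s' <;> simp_all

/-- Membership in the set of digits. -/
lemma mem_digs (a : ℕ → ℕ → ℤ) (n i j : ℕ) (s : Bool) :
    List.replicate (cd4 n i j s) false ∈ digs a ↔
      (a n i).natAbs.testBit j = true ∧ (s = true ↔ 0 ≤ a n i) := by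
  constructor
  · rintro ⟨n', i', j', s', h, h1, h2⟩
    have h3 := congrArg List.length h
    rw [List.length_replicate, List.length_replicate] at h3
    obtain ⟨rfl, rfl, rfl, rfl⟩ := cd4_inj h3
    exact ⟨h1, h2⟩
  · rintro ⟨h1, h2⟩
    exact ⟨n, i, j, s, rfl, h1, h2⟩

lemma onlyZeros_replicate (k : ℕ) : onlyZeros (List.replicate k false) = true := by
  simp [onlyZeros]

lemma onlyZeros_digs {a : ℕ → ℕ → ℤ} {w : Word} (h : w ∈ digs a) : onlyZeros w = true := by
  obtain ⟨n, i, j, s, rfl, -⟩ := h
  exact onlyZeros_replicate _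

lemma ncard_digs (a : ℕ → ℕ → ℤ) (n : ℕ) : {w ∈ digs a | w.length ≤ n}.ncard ≤ n + 1 := by
  have h1 : {w ∈ digs a | w.length ≤ n} ⊆
      ((Finset.range (n + 1)).image fun k => List.replicate k false : Finset Word) := by
    rintro w ⟨⟨n', i, j, s, rfl, -⟩, hlen⟩
    rw [List.length_replicate] at hlen
    simp only [Finset.coe_image, Set.mem_image, Finset.mem_coe, Finset.mem_range]
    exact ⟨_, by omega, rfl⟩
  refine (Set.ncard_le_ncard h1 (Finset.finite_toSet _)).trans ?_
  rw [Set.ncard_coe_finset]
  exact Finset.card_image_le.trans (by rw [Finset.card_range])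

lemma sparse_digs (a : ℕ → ℕ → ℤ) : Sparse (digs a) :=
  ⟨1, fun n => by rw [pow_one]; exact ncard_digs a n⟩

private lemma ofDigits_pow (j : ℕ) : ofDigits (List.replicate j false ++ [true]) = 2 ^ j := by
  induction j with
  | zero => rfl
  | succ j ih =>
    rw [List.replicate_succ, List.cons_append, ofDigits, ih]
    simp [pow_succ]
    ring

private lemma sum_bits (m k : ℕ) :
    (∑ j ∈ range k, if m.testBit j = true then 2 ^ j else 0) = m % 2 ^ k := by
  induction k with
  | zero => simp [Nat.mod_one]
  | succ k ih =>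
    rw [Finset.sum_range_succ, ih, Nat.mod_pow_succ, Nat.testBit_eq_decide_div_mod_eq]
    rcases Nat.mod_two_eq_zero_or_one (m / 2 ^ k) with h | h <;> rw [h] <;> simp

private lemma sum_list_range (k : ℕ) (f : ℕ → ℤ) :
    ((List.range k).map f).sum = ∑ j ∈ range k, f j := by
  induction k with
  | zero => rfl
  | succ k ih => rw [List.range_succ, List.map_append, List.sum_append, ih, sum_range_succ]; simp

private lemma sum_filter_map (p : ℕ → Bool) (f : ℕ → ℤ) (l : List ℕ) :
    ((l.filter p).map f).sum = (l.map fun i => if p i = true then f i else 0).sum := by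
  induction l with
  | nil => rfl
  | cons i l ih =>
    rw [List.filter_cons, List.map_cons, List.sum_cons, ← ih]
    cases p i <;> simp

private lemma votes_nil (S : Set Word) : votes S [] = 0 := rfl

private lemma votes_append (S : Set Word) (l l' : List ((Bool × List Bool) × List Word)) :
    votes S (l ++ l') = votes S l + votes S l' := by
  unfold votes
  rw [List.map_append, List.sum_append]

private lemma votes_flatMap (S : Set Word) (l : List ℕ)
    (f : ℕ → List ((Bool × List Bool) × List Word)) :
    votes S (l.flatMap f) = (l.map fun i => votes S (f i)).sum := by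
  induction l with
  | nil => rfl
  | cons i l ih => rw [List.flatMap_cons, votes_append, ih, List.map_cons, List.sum_cons]

/-- The two votes for one digit. -/
private lemma votes_digit (a : ℕ → ℕ → ℤ) (n i j : ℕ) :
    votes (digs a) [((true, List.replicate j false ++ [true]),
        [List.replicate (cd4 n i j true) false]),
      ((false, List.replicate j false ++ [true]), [List.replicate (cd4 n i j false) false])] =
      (if 0 ≤ a n i then 1 else -1) *
        ((if (a n i).natAbs.testBit j = true then 2 ^ j else 0 : ℕ) : ℤ) := by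
  classical
  unfold votes
  simp only [List.map_cons, List.map_nil, List.sum_cons, List.sum_nil, List.mem_singleton,
    forall_eq, mem_digs, weight, ofDigits_pow]
  by_cases h : (a n i).natAbs.testBit j = true
  · by_cases h' : 0 ≤ a n i
    · simp [h, h']
    · simp [h, h']
  · simp [h]

private lemma votes_number (a : ℕ → ℕ → ℤ) (n i : ℕ)
    (h : (a n i).natAbs < 2 ^ ((n + 1) ^ 2)) :
    votes (digs a) ((List.range ((n + 1) ^ 2)).flatMap fun j =>
      [((true, List.replicate j false ++ [true]), [List.replicate (cd4 n i j true) false]),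
        ((false, List.replicate j false ++ [true]),
          [List.replicate (cd4 n i j false) false])]) = a n i := by
  rw [votes_flatMap]
  simp only [votes_digit]
  rw [sum_list_range, ← Finset.mul_sum, ← Nat.cast_sum, sum_bits, Nat.mod_eq_of_lt h]
  split_ifs with h'
  · rw [one_mul]; exact Int.natAbs_of_nonneg h'
  · push Not at h'
    have := Int.ofNat_natAbs_of_nonpos h'.le
    omega

/-- The votes give the value of the gate. -/
theorem votes_gvotes (a : ℕ → ℕ → ℤ) (ha : ∀ n i, (a n i).natAbs < 2 ^ ((n + 1) ^ 2)) (y : Word) :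
    votes (digs a) (gvotes y) = gval (a y.length) y := by
  unfold gvotes gval
  rw [List.flatMap_append, votes_append, votes_flatMap]
  simp only [List.flatMap_cons, List.flatMap_nil, List.append_nil]
  rw [votes_number a _ _ (ha _ _), List.map_congr_left (g := fun i => a y.length i)
    (fun i _ => votes_number a _ _ (ha _ _)), sum_filter_map, sum_list_range]

end Pool.Agent.Lib.MP_634427_lc.Gate
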