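import Pool.Agent.Lib.MP_634427_lc.Gate.Int
import Pool.Agent.Lib.MP_634427_lc.Gate.Digits

/-!
# Sets reducible to weighted threshold gates are weighted votes over one sparse set
-/

namespace Pool.Agent.Lib.MP_634427_lc.Gate

private lemma pt_cd {γ : Type} [Enc γ] {a b : γ → ℕ} (ha : PT a) (hb : PT b) :
    PT fun c => cd (a c) (b c) :=
  PT.add (PT.pow (PT.add ha hb) 2) hb

private lemma pt_vote {γ : Type} [Enc γ] {n i j : γ → ℕ} (hn : PT n) (hi : PT i) (hj : PT j)
    (s : Bool) : PT fun c => (((s, List.replicate (j c) false ++ [true]),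
      [List.replicate (cd4 (n c) (i c) (j c) s) false]) : (Bool × Word) × List Word) := by
  have h1 : PT fun c => cd4 (n c) (i c) (j c) s :=
    pt_cd (pt_cd (pt_cd hn hi) hj) (PT.const _)
  exact PT.pair (PT.pair (PT.const s) (PT.append (PT.replicate hj (PT.const false))
    (PT.const [true]))) (PT.cons (PT.replicate h1 (PT.const false)) (PT.const []))

lemma pt_gvotes : PT gvotes := by
  have hlen : PT fun y : Word => y.length := PT.length PT.id
  have h1 : PT fun y : Word =>
      (List.range y.length).filter (fun i => y.getD i false) ++ [y.length] :=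
    PT.append (PT.filter (p := fun (y : Word) (i : ℕ) => y.getD i false) (PT.range hlen)
      (PT.getLD PT.snd PT.fst (PT.const false))) (PT.cons hlen (PT.const []))
  have h2 : PT fun p : Word × ℕ => List.range ((p.1.length + 1) ^ 2) :=
    PT.range (PT.pow (PT.succ (PT.length PT.fst)) 2)
  have h3 : ∀ s, PT fun q : (Word × ℕ) × ℕ => (((s, List.replicate q.2 false ++ [true]),
      [List.replicate (cd4 q.1.1.length q.1.2 q.2 s) false]) : (Bool × Word) × List Word) :=
    fun s => pt_vote (PT.length (PT.fst' PT.fst)) (PT.snd' PT.fst) PT.snd s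
  exact PT.flatMap' (F := fun p : Word × ℕ => (List.range ((p.1.length + 1) ^ 2)).flatMap fun j =>
      [((true, List.replicate j false ++ [true]), [List.replicate (cd4 p.1.length p.2 j true) false]),
        ((false, List.replicate j false ++ [true]),
          [List.replicate (cd4 p.1.length p.2 j false) false])]) h1
    (PT.flatMap' (F := fun q : (Word × ℕ) × ℕ =>
      [((true, List.replicate q.2 false ++ [true]),
        [List.replicate (cd4 q.1.1.length q.1.2 q.2 true) false]),
        ((false, List.replicate q.2 false ++ [true]),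
          [List.replicate (cd4 q.1.1.length q.1.2 q.2 false) false])]) h2
      (PT.cons (h3 true) (PT.cons (h3 false) (PT.const []))))

lemma gvotes_tally {y : Word} {e : (Bool × Word) × List Word} (he : e ∈ gvotes y) :
    e.2.length ≤ 1 ∧ ∀ w ∈ e.2, onlyZeros w = true := by
  unfold gvotes at he
  obtain ⟨i, -, he⟩ := List.mem_flatMap.1 he
  obtain ⟨j, -, he⟩ := List.mem_flatMap.1 he
  rcases List.mem_cons.1 he with rfl | he
  · exact ⟨le_rfl, fun w hw => by rw [List.mem_singleton.1 hw]; exact onlyZeros_replicate _⟩
  · rw [List.mem_singleton] at he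
    subst he
    exact ⟨le_rfl, fun w hw => by rw [List.mem_singleton.1 hw]; exact onlyZeros_replicate _⟩

/-- Membership in a set given by weighted threshold gates with arbitrary real weights is a weighted
vote over one set of words in `0*`. -/
theorem exists_votes {B : Set Word} (hB : ThresholdGates B) : ∃ S : Set Word,
    (∀ w ∈ S, onlyZeros w = true) ∧ (∀ n, {w ∈ S | w.length ≤ n}.ncard ≤ n + 1) ∧
    ∀ f : Word → Word, PT f → ∃ out : Word → List ((Bool × List Bool) × List Word), PT out ∧
      (∀ x, ∀ e ∈ out x, e.2.length ≤ 1 ∧ ∀ w ∈ e.2, onlyZeros w = true) ∧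
      ∀ x, f x ∈ B ↔ 0 < votes S (out x) := by
  obtain ⟨a, ha, hBa⟩ := exists_int hB
  refine ⟨digs a, fun w hw => onlyZeros_digs hw, ncard_digs a, fun f hf =>
    ⟨fun x => gvotes (f x), pt_gvotes.comp hf, fun x e he => gvotes_tally he, fun x => ?_⟩⟩
  rw [votes_gvotes a ha]
  exact hBa (f x)

private lemma answers_true (S : Set Word) (query : List Bool → Word) (n : ℕ) :
    answers S (fun _ => true) query n = [] := by
  induction n with
  | zero => rfl
  | succ n ih =>
    rw [answers, if_pos rfl]
    exact ih

/-- All sets reducible to `B` are weighted reducible to one sparse set. -/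
theorem exists_reducible {B : Set Word} (hB : ThresholdGates B) : ∃ S : Set Word, Sparse S ∧
    ∀ A, ManyOneReducible A B → WeightedReducible A S := by
  obtain ⟨S, hS0, hSn, hS⟩ := exists_votes hB
  refine ⟨S, ⟨1, fun n => by rw [pow_one]; exact hSn n⟩, ?_⟩
  rintro A ⟨f, hf, hAf⟩
  obtain ⟨out, hout, h1, h2⟩ := hS f hf
  refine ⟨1, fun _ => true, fun _ => [], fun p => out p.1, fun _ => 0, 1, PT.const _, PT.const _,
    hout.comp PT.fst, monotone_const, fun n => ?_, fun x => ⟨[], ?_, rfl, ?_, ?_, ?_⟩⟩
  · rw [pow_zero]; omega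
  · exact (answers_true S _ _).symm
  · simp [noBlocks]
  · intro e he
    exact Or.inl (h1 x e he)
  · rw [hAf x, h2 x]

end Pool.Agent.Lib.MP_634427_lc.Gate
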