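import Pool.Agent.Lib.MP_634427_lc.LT.WModel
import Pool.Agent.Lib.MP_634427_lc.KNoPT

/-!
# Weighted threshold gates with real weights

`ThresholdGates B`: the words of each length `n` in `B` are given by one threshold gate with
arbitrary real weights (the class LT1).
-/

namespace Pool.Agent.Lib.MP_634427_lc

/-- `B` is decided by single weighted threshold gates (the class LT1): for every `n` there are real
weights `w i` and a real threshold `t` such that a word `x` of length `n` is in `B` if and only if
the sum of the weights of the positions `i < n` where `x` has the letter `1` is larger than `t`. -/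
def ThresholdGates (B : Set Word) : Prop :=
  ∀ n : ℕ, ∃ (w : ℕ → ℝ) (t : ℝ), ∀ x : Word, x.length = n →
    (x ∈ B ↔ t < ∑ i ∈ Finset.range n, if x.getD i false = true then w i else 0)

/-- `A` is many-one reducible to `B` in polynomial time. -/
def ManyOneReducible (A B : Set Word) : Prop :=
  ∃ f : Word → Word, PT f ∧ ∀ x, x ∈ A ↔ f x ∈ B

namespace Gate

/-- The value of the gate with integer weights `a 0, .., a (n - 1)` and threshold `- a n`. -/
def gval (a : ℕ → ℤ) (x : Word) : ℤ :=
  (∑ i ∈ Finset.range x.length, if x.getD i false = true then a i else 0) + a x.length

/-- A code for pairs. -/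
def cd (a b : ℕ) : ℕ := (a + b) ^ 2 + b

/-- A code for the digits of the weights. -/
def cd4 (n i j : ℕ) (s : Bool) : ℕ := cd (cd (cd n i) j) (bif s then 1 else 0)

/-- The binary digits of the weights, coded by words in `0*`. -/
def digs (a : ℕ → ℕ → ℤ) : Set Word :=
  {w | ∃ n i j s, w = List.replicate (cd4 n i j s) false ∧ (a n i).natAbs.testBit j = true ∧
    (s = true ↔ 0 ≤ a n i)}

/-- The votes for the word `y`. -/
def gvotes (y : Word) : List ((Bool × Word) × List Word) :=
  ((List.range y.length).filter (fun i => y.getD i false) ++ [y.length]).flatMap fun i =>
    (List.range ((y.length + 1) ^ 2)).flatMap fun j =>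
      [((true, List.replicate j false ++ [true]), [List.replicate (cd4 y.length i j true) false]),
        ((false, List.replicate j false ++ [true]),
          [List.replicate (cd4 y.length i j false) false])]

end Gate

end Pool.Agent.Lib.MP_634427_lc
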