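import Mathlib

/-!
# Integer weights of bounded size

If finitely many integer vectors have positive scalar products with a real vector, then they have
positive scalar products with an integer vector with entries at most `N! * R ^ N`.
-/

namespace Pool.Agent.Lib.MP_634427_lc.Gate

open Finset

section vertex

variable {N : ℕ} {κ : Type} [Finite κ] (c : κ → Fin N → ℝ) (β : κ → ℝ)

/-- The point `x` satisfies all constraints. -/
private def Feas (x : Fin N → ℝ) : Prop := ∀ k, β k ≤ c k ⬝ᵥ x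

/-- The span of the tight constraints. -/
private noncomputable def tspan (x : Fin N → ℝ) : Submodule ℝ (Fin N → ℝ) :=
  Submodule.span ℝ {y | ∃ k, c k = y ∧ c k ⬝ᵥ x = β k}

/-- A feasible point whose tight constraints do not span can be moved. -/
private lemma exists_move (hpt : ∀ u : Fin N → ℝ, u ≠ 0 → ∃ k, c k ⬝ᵥ u ≠ 0) {x : Fin N → ℝ}
    (hx : Feas c β x) (hlt : tspan c β x < ⊤) :
    ∃ x', Feas c β x' ∧ tspan c β x < tspan c β x' := by
  classical
  cases nonempty_fintype κ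
  have hdot : ∀ (f : (Fin N → ℝ) →ₗ[ℝ] ℝ) (y : Fin N → ℝ),
      f y = y ⬝ᵥ fun j => f (Pi.single j 1) := by
    intro f y
    conv_lhs => rw [pi_eq_sum_univ' y]
    rw [map_sum]
    refine Finset.sum_congr rfl fun j _ => ?_
    rw [map_smul, smul_eq_mul]
  obtain ⟨f, hker, k1, hk1⟩ : ∃ f : (Fin N → ℝ) →ₗ[ℝ] ℝ, tspan c β x ≤ LinearMap.ker f ∧
      ∃ k, f (c k) < 0 := by
    obtain ⟨f, hf, hker⟩ := Submodule.exists_le_ker_of_lt_top _ hlt
    have hu0 : (fun j => f (Pi.single j 1)) ≠ 0 := by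
      intro h
      apply hf
      ext y
      simp only [LinearMap.coe_comp, Function.comp_apply, LinearMap.zero_comp,
        LinearMap.zero_apply]
      rw [hdot, h, dotProduct_zero]
    obtain ⟨k, hk⟩ := hpt _ hu0
    rw [← hdot] at hk
    rcases lt_or_gt_of_ne hk with h | h
    · exact ⟨f, hker, k, h⟩
    · refine ⟨-f, fun y hy => ?_, k, ?_⟩
      · rw [LinearMap.mem_ker, LinearMap.neg_apply, LinearMap.mem_ker.1 (hker hy), neg_zero]
      · rw [LinearMap.neg_apply]
        linarith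
  set u : Fin N → ℝ := fun j => f (Pi.single j 1) with hu
  have hfu : ∀ y : Fin N → ℝ, f y = y ⬝ᵥ u := hdot f
  rw [hfu] at hk1
  have htight : ∀ k, c k ⬝ᵥ x = β k → c k ⬝ᵥ u = 0 := by
    intro k hk
    have h1 : c k ∈ tspan c β x := Submodule.subset_span ⟨k, rfl, hk⟩
    have h2 := hker h1
    rw [LinearMap.mem_ker, hfu] at h2
    exact h2
  set Z := Finset.univ.filter fun k => c k ⬝ᵥ u < 0 with hZ
  have hZne : Z.Nonempty := ⟨k1, by rw [hZ, Finset.mem_filter]; exact ⟨Finset.mem_univ _, hk1⟩⟩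
  obtain ⟨k0, hk0, hmin⟩ := Finset.exists_min_image Z
    (fun k => (c k ⬝ᵥ x - β k) / (-(c k ⬝ᵥ u))) hZne
  rw [hZ, Finset.mem_filter] at hk0
  have hk0' := hk0.2
  set t := (c k0 ⬝ᵥ x - β k0) / (-(c k0 ⬝ᵥ u)) with ht
  have ht0 : 0 ≤ t := div_nonneg (by linarith [hx k0]) (by linarith)
  refine ⟨x + t • u, fun k => ?_, ?_⟩
  · rw [dotProduct_add, dotProduct_smul, smul_eq_mul]
    rcases lt_or_ge (c k ⬝ᵥ u) 0 with h | h
    · have h1 := hmin k (by rw [hZ, Finset.mem_filter]; exact ⟨Finset.mem_univ _, h⟩)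
      have h1' : t ≤ (c k ⬝ᵥ x - β k) / (-(c k ⬝ᵥ u)) := h1
      rw [le_div_iff₀ (by linarith)] at h1'
      linarith
    · have := mul_nonneg ht0 h
      linarith [hx k]
  · have hk0t : c k0 ⬝ᵥ (x + t • u) = β k0 := by
      rw [dotProduct_add, dotProduct_smul, smul_eq_mul, ht, div_mul_eq_mul_div,
        div_neg, mul_div_assoc, div_self hk0'.ne]
      ring
    refine lt_of_le_of_ne (Submodule.span_mono ?_) ?_
    · rintro y ⟨k, hky, hk⟩
      refine ⟨k, hky, ?_⟩
      rw [dotProduct_add, dotProduct_smul, htight k hk, smul_zero, add_zero, hk]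
    · intro heq
      have h1 : c k0 ∈ tspan c β (x + t • u) := Submodule.subset_span ⟨k0, rfl, hk0t⟩
      rw [← heq] at h1
      have h2 := hker h1
      rw [LinearMap.mem_ker, hfu] at h2
      exact hk0'.ne h2

/-- There is a vertex. -/
private lemma exists_vertex (hpt : ∀ u : Fin N → ℝ, u ≠ 0 → ∃ k, c k ⬝ᵥ u ≠ 0) {x : Fin N → ℝ}
    (hx : Feas c β x) : ∃ x', Feas c β x' ∧ tspan c β x' = ⊤ := by
  obtain ⟨W, ⟨x', hx', hW⟩, hmax⟩ := (wellFounded_gt
    (α := Submodule ℝ (Fin N → ℝ))).has_min {W | ∃ x', Feas c β x' ∧ tspan c β x' = W}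
    ⟨_, x, hx, rfl⟩
  refine ⟨x', hx', ?_⟩
  by_contra hne
  obtain ⟨x'', hx'', hlt⟩ := exists_move c β hpt hx' (lt_top_iff_ne_top.2 hne)
  exact hmax _ ⟨x'', hx'', rfl⟩ (by rw [← hW]; exact hlt)

end vertex

/-- A feasible system of constraints with integer coefficients, containing a sign constraint for
each coordinate, has a solution with bounded integer entries up to a positive factor. -/
private lemma exists_int_vertex {N : ℕ} {κ : Type} [Finite κ] (c : κ → Fin N → ℤ) (β : κ → ℤ)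
    (R : ℕ) (hc : ∀ k j, |c k j| ≤ R) (hβ : ∀ k, |β k| ≤ R)
    (hpt : ∀ u : Fin N → ℝ, u ≠ 0 → ∃ k, (fun j => (c k j : ℝ)) ⬝ᵥ u ≠ 0) {x : Fin N → ℝ}
    (hx : ∀ k, (β k : ℝ) ≤ (fun j => (c k j : ℝ)) ⬝ᵥ x) :
    ∃ (d : ℤ) (w : Fin N → ℤ), 1 ≤ d ∧ (∀ k, d * β k ≤ ∑ j, c k j * w j) ∧
      ∀ j, |w j| ≤ N.factorial * R ^ N := by
  classical
  obtain ⟨x', hx', hspan⟩ := exists_vertex (fun k j => (c k j : ℝ)) (fun k => (β k : ℝ)) hpt hx
  obtain ⟨f, hf, -, hind⟩ := Submodule.exists_fun_fin_finrank_span_eq ℝ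
    {y | ∃ k, (fun j => (c k j : ℝ)) = y ∧ (fun j => (c k j : ℝ)) ⬝ᵥ x' = (β k : ℝ)}
  have hspan' : Submodule.span ℝ
      {y | ∃ k, (fun j => (c k j : ℝ)) = y ∧ (fun j => (c k j : ℝ)) ⬝ᵥ x' = (β k : ℝ)} = ⊤ :=
    hspan
  have hN : Module.finrank ℝ (Submodule.span ℝ
      {y | ∃ k, (fun j => (c k j : ℝ)) = y ∧ (fun j => (c k j : ℝ)) ⬝ᵥ x' = (β k : ℝ)}) = N := by
    rw [hspan', finrank_top, Module.finrank_fin_fun]
  set e : Fin N → Fin (Module.finrank ℝ (Submodule.span ℝ
      {y | ∃ k, (fun j => (c k j : ℝ)) = y ∧ (fun j => (c k j : ℝ)) ⬝ᵥ x' = (β k : ℝ)})) :=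
    Fin.cast hN.symm with he
  choose g hg1 hg2 using hf
  -- the matrix of tight constraints
  set A : Matrix (Fin N) (Fin N) ℤ := fun i j => c (g (e i)) j with hA
  set b : Fin N → ℤ := fun i => β (g (e i)) with hb
  set AR : Matrix (Fin N) (Fin N) ℝ := A.map (Int.cast : ℤ → ℝ) with hAR
  have hrow : LinearIndependent ℝ AR.row := by
    have h1 : AR.row = f ∘ e := by
      funext i
      rw [Function.comp_apply, ← hg1 (e i)]
      rfl
    rw [h1]
    exact hind.comp _ (Fin.cast_injective hN.symm)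
  have hunit := Matrix.linearIndependent_rows_iff_isUnit.1 hrow
  have hdet : AR.det ≠ 0 := (Matrix.isUnit_iff_isUnit_det _).1 hunit |>.ne_zero
  have hdetZ : AR.det = ((A.det : ℤ) : ℝ) := (Int.cast_det A).symm
  have hdet0 : A.det ≠ 0 := by
    intro h
    rw [hdetZ, h] at hdet
    exact hdet Int.cast_zero
  have hmul : AR.mulVec x' = fun i => (b i : ℝ) := by
    funext i
    have h1 := hg2 (e i)
    exact h1
  -- Cramer's rule
  have hcr : ∀ j, AR.det * x' j = ((Matrix.cramer A b j : ℤ) : ℝ) := by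
    intro j
    have h1 : AR.det • x' = Matrix.cramer AR (fun i => (b i : ℝ)) := by
      rw [Matrix.cramer_eq_adjugate_mulVec, ← hmul, Matrix.mulVec_mulVec, Matrix.adjugate_mul,
        Matrix.smul_mulVec, Matrix.one_mulVec]
    have h2 := congrFun h1 j
    rw [Pi.smul_apply, smul_eq_mul] at h2
    rw [h2, Matrix.cramer_apply, Matrix.cramer_apply, Int.cast_det]
    congr 1
    ext i l
    by_cases h : l = j
    · subst h
      simp [Matrix.updateCol_self]
    · rw [Matrix.updateCol_ne h]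
      simp [Matrix.updateCol_ne h, hAR]
  set s : ℤ := A.det.sign with hs
  have hsd : s * A.det = |A.det| := Int.sign_mul_self_eq_abs A.det
  refine ⟨|A.det|, fun j => s * Matrix.cramer A b j, Int.one_le_abs hdet0, fun k => ?_,
    fun j => ?_⟩
  · have h1 : ((∑ j, c k j * (s * Matrix.cramer A b j) : ℤ) : ℝ) =
        (|A.det| : ℤ) * ((fun j => (c k j : ℝ)) ⬝ᵥ x') := by
      push_cast
      simp only [dotProduct, Finset.mul_sum]
      refine Finset.sum_congr rfl fun j _ => ?_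
      rw [← hcr j, hdetZ]
      have h2 : ((s : ℤ) : ℝ) * ((A.det : ℤ) : ℝ) = |((A.det : ℤ) : ℝ)| := by
        rw [← Int.cast_mul, hsd, Int.cast_abs]
      rw [← h2]
      ring
    have h2 : ((|A.det| * β k : ℤ) : ℝ) ≤ ((∑ j, c k j * (s * Matrix.cramer A b j) : ℤ) : ℝ) := by
      rw [h1, Int.cast_mul]
      exact mul_le_mul_of_nonneg_left (hx' k) (by exact_mod_cast abs_nonneg A.det)
    exact_mod_cast h2
  · rw [abs_mul]
    have h1 : |s| ≤ 1 := by
      rw [hs]
      rcases Int.sign_trichotomy A.det with h | h | h <;> rw [h] <;> norm_num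
    have h2 : |Matrix.cramer A b j| ≤ N.factorial * R ^ N := by
      rw [Matrix.cramer_apply]
      have h3 := Matrix.det_le (A := A.updateCol j b) (abv := AbsoluteValue.abs)
        (x := (R : ℤ)) (by
          intro i l
          show |A.updateCol j b i l| ≤ (R : ℤ)
          by_cases h : l = j
          · subst h
            rw [Matrix.updateCol_self]
            exact hβ _
          · rw [Matrix.updateCol_ne h]
            exact hc _ _)
      rw [Fintype.card_fin, nsmul_eq_mul] at h3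
      exact h3
    calc |s| * |Matrix.cramer A b j| ≤ 1 * |Matrix.cramer A b j| :=
          mul_le_mul_of_nonneg_right h1 (abs_nonneg _)
      _ = |Matrix.cramer A b j| := one_mul _
      _ ≤ _ := h2

/-- Bounded integer weights. -/
theorem exists_int_weights {N : ℕ} {ι : Type} [Finite ι] (v : ι → Fin N → ℤ) (R : ℕ) (hR : 1 ≤ R)
    (hv : ∀ i j, |v i j| ≤ R) (w : Fin N → ℝ) (hw : ∀ i, 0 < ∑ j, (v i j : ℝ) * w j) :
    ∃ w' : Fin N → ℤ, (∀ i, 0 < ∑ j, v i j * w' j) ∧ ∀ j, |w' j| ≤ N.factorial * R ^ N := by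
  classical
  cases nonempty_fintype ι
  -- a positive multiple of `w` satisfies `1 ≤`
  obtain ⟨K, hK0, hK⟩ : ∃ K : ℝ, 0 ≤ K ∧ ∀ i, 1 ≤ K * ∑ j, (v i j : ℝ) * w j := by
    refine ⟨∑ i, (∑ j, (v i j : ℝ) * w j)⁻¹,
      Finset.sum_nonneg fun i _ => (inv_pos.2 (hw i)).le, fun i => ?_⟩
    have h1 : (∑ j, (v i j : ℝ) * w j)⁻¹ ≤ ∑ i, (∑ j, (v i j : ℝ) * w j)⁻¹ :=
      Finset.single_le_sum (f := fun i => (∑ j, (v i j : ℝ) * w j)⁻¹)
        (fun i _ => (inv_pos.2 (hw i)).le) (Finset.mem_univ i)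
    calc (1 : ℝ) = (∑ j, (v i j : ℝ) * w j)⁻¹ * ∑ j, (v i j : ℝ) * w j :=
          (inv_mul_cancel₀ (hw i).ne').symm
      _ ≤ _ := mul_le_mul_of_nonneg_right h1 (hw i).le
  let sg : Fin N → ℤ := fun j => if 0 ≤ w j then 1 else -1
  have hsg : ∀ j, (0 : ℝ) ≤ (sg j : ℝ) * w j := by
    intro j
    by_cases h : 0 ≤ w j
    · simp only [sg, if_pos h]; simpa using h
    · simp only [sg, if_neg h]; push_cast; linarith
  have hsg2 : ∀ j, sg j = 1 ∨ sg j = -1 := by
    intro j
    by_cases h : 0 ≤ w j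
    · left; simp only [sg, if_pos h]
    · right; simp only [sg, if_neg h]
  let c : ι ⊕ (Fin N ⊕ Unit) → Fin N → ℤ := Sum.elim v (Sum.elim (fun j => Pi.single j (sg j))
    fun _ => 0)
  let β : ι ⊕ (Fin N ⊕ Unit) → ℤ := Sum.elim (fun _ => 1) fun _ => 0
  have key : ∃ (d : ℤ) (w' : Fin N → ℤ), 1 ≤ d ∧ (∀ k, d * β k ≤ ∑ j, c k j * w' j) ∧
      ∀ j, |w' j| ≤ N.factorial * R ^ N := by
    refine exists_int_vertex c β R ?_ ?_ ?_ (x := fun j => K * w j) ?_
    · rintro (i | j | _) l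
      · exact hv i l
      · show |(Pi.single j (sg j) : Fin N → ℤ) l| ≤ R
        rw [Pi.single_apply]
        split_ifs
        · rcases hsg2 j with h | h <;> rw [h] <;> simpa using hR
        · simp
      · simp [c]
    · rintro (i | k)
      · simpa [β] using hR
      · simp [β]
    · intro u hu
      obtain ⟨j, hj⟩ := Function.ne_iff.1 hu
      have hj' : u j ≠ 0 := hj
      refine ⟨Sum.inr (Sum.inl j), ?_⟩
      have h1 : (fun l => ((c (Sum.inr (Sum.inl j)) l : ℤ) : ℝ)) ⬝ᵥ u = (sg j : ℝ) * u j := by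
        simp only [c, Sum.elim_inr, Sum.elim_inl, dotProduct]
        rw [Finset.sum_eq_single j]
        · rw [Pi.single_eq_same]
        · intro l _ hl
          rw [Pi.single_eq_of_ne hl]
          simp
        · simp
      rw [h1]
      rcases hsg2 j with h | h <;> rw [h] <;> simpa using hj'
    · rintro (i | j | _)
      · simp only [β, c, Sum.elim_inl, Int.cast_one]
        refine (hK i).trans_eq ?_
        simp only [dotProduct, Finset.mul_sum]
        exact Finset.sum_congr rfl fun j _ => by ring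
      · simp only [β, c, Sum.elim_inr, Sum.elim_inl, Int.cast_zero]
        simp only [dotProduct]
        rw [Finset.sum_eq_single j]
        · rw [Pi.single_eq_same]
          have := mul_nonneg hK0 (hsg j)
          linarith
        · intro l _ hl
          rw [Pi.single_eq_of_ne hl]
          simp
        · simp
      · simp [β, c, dotProduct]
  obtain ⟨d, w', hd, h1, h2⟩ := key
  refine ⟨w', fun i => ?_, h2⟩
  have := h1 (Sum.inl i)
  simp only [β, c, Sum.elim_inl, mul_one] at this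
  omega

end Pool.Agent.Lib.MP_634427_lc.Gate
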