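import Pool.Agent.Lib.MP_634427_lc.Gate.Defs
import Pool.Agent.Lib.MP_634427_lc.Gate.Muroga

/-!
# Integer weights for the gates
-/

namespace Pool.Agent.Lib.MP_634427_lc.Gate

open Finset

private lemma fact_lt (n : ℕ) : (n + 1).factorial < 2 ^ ((n + 1) ^ 2) := by
  calc (n + 1).factorial ≤ (n + 1) ^ (n + 1) := Nat.factorial_le_pow _
    _ < (2 ^ (n + 1)) ^ (n + 1) := Nat.pow_lt_pow_left Nat.lt_two_pow_self (by omega)
    _ = 2 ^ ((n + 1) ^ 2) := by rw [← pow_mul, sq]

/-- The threshold can be moved so that it is never attained. -/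
private lemma exists_thr (n : ℕ) (P : (Fin n → Bool) → Prop) (σ : (Fin n → Bool) → ℝ) (t : ℝ)
    (h : ∀ g, P g ↔ t < σ g) : ∃ t', ∀ g, (P g → t' < σ g) ∧ (¬ P g → σ g < t') := by
  classical
  by_cases hne : (Finset.univ.filter P).Nonempty
  · obtain ⟨g0, hg0, hmin⟩ := Finset.exists_min_image _ σ hne
    rw [Finset.mem_filter] at hg0
    have h0 := (h g0).1 hg0.2
    refine ⟨(t + σ g0) / 2, fun g => ⟨fun hg => ?_, fun hg => ?_⟩⟩
    · have := hmin g (by rw [Finset.mem_filter]; exact ⟨Finset.mem_univ _, hg⟩)
      linarith
    · have h1 : ¬ t < σ g := fun h2 => hg ((h g).2 h2)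
      linarith
  · refine ⟨t + 1, fun g => ⟨fun hg => ?_, fun hg => ?_⟩⟩
    · exact absurd ⟨g, by rw [Finset.mem_filter]; exact ⟨Finset.mem_univ _, hg⟩⟩ hne
    · have h1 : ¬ t < σ g := fun h2 => hg ((h g).2 h2)
      linarith

/-- Integer weights with few digits. -/
theorem exists_int {B : Set Word} (hB : ThresholdGates B) : ∃ a : ℕ → ℕ → ℤ,
    (∀ n i, (a n i).natAbs < 2 ^ ((n + 1) ^ 2)) ∧ ∀ x, x ∈ B ↔ 0 < gval (a x.length) x := by
  classical
  have key : ∀ n, ∃ a : ℕ → ℤ, (∀ i, (a i).natAbs < 2 ^ ((n + 1) ^ 2)) ∧
      ∀ x : Word, x.length = n → (x ∈ B ↔ 0 < gval a x) := by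
    intro n
    obtain ⟨w, t, hw⟩ := hB n
    have hsum : ∀ g : Fin n → Bool, (∑ i ∈ range n,
        if (List.ofFn g).getD i false = true then w i else 0) =
        ∑ i : Fin n, if g i = true then w i else 0 := by
      intro g
      rw [Finset.sum_range]
      refine Finset.sum_congr rfl fun i _ => ?_
      have h1 : (List.ofFn g).getD i false = g i := by
        rw [List.getD_eq_getElem _ _ (by rw [List.length_ofFn]; exact i.2), List.getElem_ofFn]
      rw [h1]
    obtain ⟨t', ht'⟩ := exists_thr n (fun g => List.ofFn g ∈ B)
      (fun g => ∑ i : Fin n, if g i = true then w i else 0) t (fun g => by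
        rw [hw _ (List.length_ofFn), hsum])
    let eps : (Fin n → Bool) → ℤ := fun g => if List.ofFn g ∈ B then 1 else -1
    let v : (Fin n → Bool) → Fin (n + 1) → ℤ := fun g =>
      Fin.snoc (α := fun _ => ℤ) (fun i => eps g * if g i = true then 1 else 0) (eps g)
    have heps : ∀ g, eps g = 1 ∨ eps g = -1 := by
      intro g
      by_cases h : List.ofFn g ∈ B
      · left; simp only [eps, if_pos h]
      · right; simp only [eps, if_neg h]
    obtain ⟨w', h1, h2⟩ := exists_int_weights v 1 le_rfl (by
        intro g j
        refine Fin.lastCases ?_ (fun i => ?_) j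
        · simp only [v, Fin.snoc_last]
          rcases heps g with h | h <;> rw [h] <;> norm_num
        · simp only [v, Fin.snoc_castSucc]
          rcases heps g with h | h <;> rw [h] <;> split_ifs <;> norm_num)
      (Fin.snoc (α := fun _ => ℝ) (fun i : Fin n => w i) (-t')) (by
        intro g
        rw [Fin.sum_univ_castSucc]
        simp only [v, Fin.snoc_last, Fin.snoc_castSucc]
        have h3 : ∑ i : Fin n, ((eps g * if g i = true then 1 else 0 : ℤ) : ℝ) * w i =
            (eps g : ℝ) * ∑ i : Fin n, if g i = true then w i else 0 := by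
          rw [Finset.mul_sum]
          refine Finset.sum_congr rfl fun i _ => ?_
          split_ifs <;> simp
        rw [h3]
        obtain ⟨h4, h5⟩ := ht' g
        by_cases h : List.ofFn g ∈ B
        · have := h4 h
          have h6 : eps g = 1 := by simp only [eps, if_pos h]
          rw [h6]
          push_cast
          linarith
        · have := h5 h
          have h6 : eps g = -1 := by simp only [eps, if_neg h]
          rw [h6]
          push_cast
          linarith)
    refine ⟨fun i => if h : i < n + 1 then w' ⟨i, h⟩ else 0, fun i => ?_, fun x hx => ?_⟩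
    · beta_reduce
      by_cases h : i < n + 1
      · rw [dif_pos h]
        have h3 := h2 ⟨i, h⟩
        rw [Nat.cast_one, one_pow, mul_one] at h3
        have h5 : ((w' ⟨i, h⟩).natAbs : ℤ) ≤ ((n + 1).factorial : ℤ) := by
          rw [Int.natCast_natAbs]
          exact h3
        have h6 : (w' ⟨i, h⟩).natAbs ≤ (n + 1).factorial := by exact_mod_cast h5
        exact h6.trans_lt (fact_lt n)
      · rw [dif_neg h, Int.natAbs_zero]
        positivity
    · set g : Fin n → Bool := fun i => x.getD i false with hg
      have hxg : List.ofFn g = x := by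
        refine List.ext_getElem (by rw [List.length_ofFn, hx]) fun i hi1 hi2 => ?_
        rw [List.getElem_ofFn]
        exact List.getD_eq_getElem _ _ hi2
      have h3 := h1 g
      rw [Fin.sum_univ_castSucc] at h3
      simp only [v, Fin.snoc_last, Fin.snoc_castSucc] at h3
      have h4 : ∑ i : Fin n, (eps g * if g i = true then 1 else 0) * w' i.castSucc =
          eps g * ∑ i : Fin n, if g i = true then w' i.castSucc else 0 := by
        rw [Finset.mul_sum]
        refine Finset.sum_congr rfl fun i _ => ?_
        split_ifs <;> simp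
      rw [h4] at h3
      have h5 : gval (fun i => if h : i < n + 1 then w' ⟨i, h⟩ else 0) x =
          (∑ i : Fin n, if g i = true then w' i.castSucc else 0) + w' (Fin.last n) := by
        unfold gval
        rw [hx, Finset.sum_range]
        beta_reduce
        rw [dif_pos (Nat.lt_succ_self n)]
        have h6 : ∀ i : Fin n, (if h : (i : ℕ) < n + 1 then w' ⟨i, h⟩ else 0) = w' i.castSucc :=
          fun i => by
            rw [dif_pos (by omega)]
            rfl
        simp only [h6]
        rfl
      rw [h5]
      by_cases h : x ∈ B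
      · have h6 : eps g = 1 := by simp only [eps, hxg, if_pos h]
        rw [h6] at h3
        constructor
        · intro _; linarith
        · intro _; exact h
      · have h6 : eps g = -1 := by simp only [eps, hxg, if_neg h]
        rw [h6] at h3
        constructor
        · intro h7; exact absurd h7 h
        · intro h7; linarith
  choose a ha1 ha2 using key
  exact ⟨a, ha1, fun x => ha2 x.length x rfl⟩

end Pool.Agent.Lib.MP_634427_lc.Gate
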